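import Pool.Agent.K4H20.OM.J3
import Pool.Agent.K4H20.QF.D

set_option autoImplicit false

/-!
# The proportion of non-vanishing central values of quadratic twists need not be one half

We exhibit a cuspidal automorphic representation of `PGL(2)` over the rationals, given classically
by an odd Hecke-Maass cusp form for `SL(2, ℤ)`, such that the twist by the quadratic character of
every quadratic field has root number `-1`, hence vanishing central value.
-/

namespace Pool.Agent.Results.MP_17f4cb_nt.OddMaass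

open UpperHalfPlane Filter NumberField
open scoped MatrixGroups Laplacian ComplexConjugate Topology

noncomputable section

/-- A function `f` on the upper half-plane as a function of a complex variable `z`;
only its values for `0 < Im z` matter. -/
def onC (f : ℍ → ℂ) (z : ℂ) : ℂ := f (ofComplex z)

/-- `f` is a Hecke-Maass cusp form of weight `0` for the full modular group `SL(2, ℤ)`, with
Laplace eigenvalue `1 / 4 - ν ^ 2` and Hecke eigenvalues `a p` (unitary normalisation:
`a p` is the trace of the Satake parameter at `p`). -/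
structure IsHeckeMaassCuspForm (f : ℍ → ℂ) (ν : ℂ) (a : ℕ → ℂ) : Prop where
  /-- `f` is not the zero function -/
  nonzero : ∃ z, f z ≠ 0
  /-- `f` is smooth -/
  smooth : ContDiffOn ℝ (⊤ : ℕ∞) (onC f) {z | 0 < z.im}
  /-- `f` is invariant under the modular group -/
  invariant : ∀ (γ : SL(2, ℤ)) (z : ℍ), f (γ • z) = f z
  /-- `- y ^ 2 (∂ ^ 2 / ∂ x ^ 2 + ∂ ^ 2 / ∂ y ^ 2) f = (1 / 4 - ν ^ 2) f` -/
  laplace : ∀ z : ℍ, -(z.im : ℂ) ^ 2 * Δ (onC f) z = (1 / 4 - ν ^ 2) * f z
  /-- `f` is bounded -/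
  bounded : ∃ B : ℝ, ∀ z, ‖f z‖ ≤ B
  /-- `f` is cuspidal -/
  cuspidal : ∀ y : ℝ, 0 < y → ∫ x in (0 : ℝ)..1, onC f (x + y * Complex.I) = 0
  /-- `f` is an eigenfunction of all Hecke operators
  `T_p f (z) = (f (p z) + ∑ b mod p, f ((z + b) / p)) / √p` -/
  hecke : ∀ p : ℕ, p.Prime → ∀ z : ℍ,
    onC f (p * z) + ∑ b ∈ Finset.range p, onC f ((z + b) / p) = (Real.sqrt p : ℂ) * a p * f z

/-- The set `X` of all quadratic extensions of `ℚ` (as subfields of `ℂ`). -/
abbrev X : Type := {E : IntermediateField ℚ ℂ // Module.finrank ℚ E = 2}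

instance (E : X) : NumberField E.1 where
  to_charZero := inferInstance
  to_finiteDimensional := Module.finite_of_finrank_pos (by rw [E.2]; norm_num)

/-- The discriminant of `E`. -/
def disc (E : X) : ℤ := NumberField.discr E.1

/-- The number of prime ideals of norm `p` in the ring of integers of the number field `K`. -/
def primesOfNorm (K : Type) [Field K] [NumberField K] (p : ℕ) : ℕ :=
  Nat.card {P : Ideal (𝓞 K) // P.IsPrime ∧ Ideal.absNorm P = p}

/-- The value at the prime `p` of the quadratic character attached to `E`: the number of prime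
ideals of norm `p` in the ring of integers of `E`, minus one. It is `1`, `0` or `-1` when `p` is
split, ramified or inert. -/
def eta (E : X) (p : ℕ) : ℤ := (primesOfNorm E.1 p : ℤ) - 1

/-- `G` is the `L`-function of the twist by the quadratic character of `E`: the entire function
given for `3 / 2 < Re s` by the Euler product with factors
`(1 - a p η(p) p ^ (-s) + η(p) ^ 2 p ^ (- 2 s))⁻¹`. -/
def IsTwistedL (a : ℕ → ℂ) (E : X) (G : ℂ → ℂ) : Prop :=
  Differentiable ℂ G ∧ ∀ s : ℂ, 3 / 2 < s.re →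
    HasProd (fun p : Nat.Primes => (1 - a p * eta E p * (p : ℂ) ^ (-s) +
      (eta E p : ℂ) ^ 2 * (p : ℂ) ^ (-(2 * s)))⁻¹) (G s)

/-- The completed `L`-function, with archimedean factor and conductor `(disc E) ^ 2`, is entire and
satisfies the functional equation between `s` and `1 - s` with root number `-1`. -/
def HasRootNumberNegOne (ν : ℂ) (E : X) (G : ℂ → ℂ) : Prop :=
  ∃ (δ : ℕ) (Λ : ℂ → ℂ), δ ≤ 1 ∧ Differentiable ℂ Λ ∧ (∀ s, Λ (1 - s) = -Λ s) ∧
    ∀ s : ℂ, |ν.re| < s.re → Λ s = ((disc E).natAbs : ℂ) ^ s * ((Real.pi : ℂ) ^ (-s) *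
      (Complex.Gamma ((s + δ + ν) / 2) * Complex.Gamma ((s + δ - ν) / 2))) * G s

/-- `N(x)`: the number of quadratic fields `E` with `|disc E| < x`. -/
def N (x : ℝ) : ℕ := Nat.card {E : X // |(disc E : ℝ)| < x}

/-- The number of quadratic fields `E` with `|disc E| < x` such that the `L`-function of the twist
by the quadratic character of `E` does not vanish at `s = 1 / 2`. -/
def NonVan (a : ℕ → ℂ) (x : ℝ) : ℕ :=
  Nat.card {E : X // |(disc E : ℝ)| < x ∧ ∃ G, IsTwistedL a E G ∧ G (1 / 2) ≠ 0}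

theorem twistedL_unique {a : ℕ → ℂ} {E : X} {G G' : ℂ → ℂ} (h : IsTwistedL a E G)
    (h' : IsTwistedL a E G') : G = G' := by
  have h1 : AnalyticOnNhd ℂ G Set.univ := fun z _ => h.1.analyticAt z
  have h2 : AnalyticOnNhd ℂ G' Set.univ := fun z _ => h'.1.analyticAt z
  have h3 : G =ᶠ[𝓝 (2 : ℂ)] G' := by
    have h4 : {s : ℂ | (3 / 2 : ℝ) < s.re} ∈ 𝓝 (2 : ℂ) :=
      (isOpen_lt continuous_const Complex.continuous_re).mem_nhds (by norm_num)
    filter_upwards [h4] with s hs
    exact (h.2 s hs).unique (h'.2 s hs)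
  exact h1.eq_of_eventuallyEq h2 h3

theorem finite_disc (x : ℝ) : {E : X | |(disc E : ℝ)| < x}.Finite := by
  obtain ⟨n, hn⟩ := exists_nat_ge x
  have h1 := NumberField.finite_of_discr_bdd ℂ n
  let g : X → {F : IntermediateField ℚ ℂ // FiniteDimensional ℚ F} := fun E =>
    ⟨E.1, Module.finite_of_finrank_pos (by rw [E.2]; norm_num)⟩
  have hg : Function.Injective g := by
    intro E E' h
    have := congrArg Subtype.val h
    exact Subtype.ext this
  refine (h1.preimage hg.injOn).subset ?_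
  intro E hE
  rw [Set.mem_preimage, Set.mem_ofPred_eq]
  have h2 : |(disc E : ℝ)| < n := lt_of_lt_of_le hE hn
  have h3 : (|disc E| : ℤ) < n := by
    rw [← Int.cast_abs] at h2
    exact_mod_cast h2
  exact h3.le

theorem exists_X : Nonempty X := by
  have h := Complex.isPrimitiveRoot_exp 4 (by norm_num)
  have h1 := Polynomial.cyclotomic_eq_minpoly_rat h (by norm_num)
  have hi : IsIntegral ℚ (Complex.exp (2 * Real.pi * Complex.I / (4 : ℕ))) :=
    (h.isIntegral (by norm_num)).tower_top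
  refine ⟨⟨IntermediateField.adjoin ℚ {Complex.exp (2 * Real.pi * Complex.I / (4 : ℕ))}, ?_⟩⟩
  rw [IntermediateField.adjoin.finrank hi, ← h1, Polynomial.natDegree_cyclotomic]
  decide

theorem N_pos : ∀ᶠ x : ℝ in atTop, 0 < N x := by
  obtain ⟨E⟩ := exists_X
  filter_upwards [eventually_gt_atTop |(disc E : ℝ)|] with x hx
  unfold N
  have h1 : Finite {E : X // |(disc E : ℝ)| < x} := finite_disc x
  have h2 : Nonempty {E : X // |(disc E : ℝ)| < x} := ⟨⟨E, hx⟩⟩
  exact Nat.card_pos

/-- **Main theorem.** There is a Hecke-Maass cusp form `f` for `SL(2, ℤ)`, odd under the reflection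
`z ↦ - conj z`, such that for every quadratic field `E` the twisted `L`-function exists, is unique,
has root number `-1` and vanishes at `s = 1 / 2`; hence the proportion of quadratic fields with
non-vanishing central value is identically zero: it tends to `0` and does not tend to `1 / 2`. -/
theorem result : ∃ (f : ℍ → ℂ) (ν : ℂ) (a : ℕ → ℂ),
    IsHeckeMaassCuspForm f ν a ∧ (∀ z : ℍ, onC f (-conj (z : ℂ)) = -f z) ∧
    (∀ E : X, ∃! G, IsTwistedL a E G) ∧
    (∀ (E : X) (G : ℂ → ℂ), IsTwistedL a E G → HasRootNumberNegOne ν E G ∧ G (1 / 2) = 0) ∧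
    (∀ x : ℝ, {E : X | |(disc E : ℝ)| < x}.Finite) ∧ (∀ᶠ x : ℝ in atTop, 0 < N x) ∧
    (∀ x : ℝ, NonVan a x = 0) ∧
    Tendsto (fun x : ℝ => (NonVan a x : ℝ) / N x) atTop (𝓝 0) ∧
    ¬ Tendsto (fun x : ℝ => (NonVan a x : ℝ) / N x) atTop (𝓝 (1 / 2)) := by
  obtain ⟨f, lam, ν, C₀, h⟩ := Pool.Agent.K4H20.OM.exists_form
  have key : ∀ E : X, ∃ G, IsTwistedL lam E G ∧ HasRootNumberNegOne ν E G ∧ G (1 / 2) = 0 := by
    intro E
    obtain ⟨χ, hp, hχ, hv⟩ := Pool.Agent.K4H20.QF.exists_char (K := E.1) E.2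
    have : NeZero (NumberField.discr E.1).natAbs :=
      ⟨Int.natAbs_ne_zero.2 (NumberField.discr_ne_zero _)⟩
    obtain ⟨Lf, Cf, δ, hδ, hL, hC, hfe, h0, hCL, hE⟩ := h.main hp hχ
    refine ⟨Lf, ⟨hL, fun s hs => ?_⟩, ⟨δ, Cf, hδ, hC, hfe, fun s hs => ?_⟩, h0⟩
    · have h1 := hE s hs
      refine Pool.Agent.K4H20.OM.hp_congr h1 fun p => ?_
      have e1 : χ (((p : ℕ) : ZMod (NumberField.discr E.1).natAbs)) = (eta E p : ℂ) :=
        hv p p.2
      have e2 : ((p : ℕ) : ℂ) ^ (-(2 * s)) = (((p : ℕ) : ℂ) ^ (-s)) ^ 2 := by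
        rw [← Complex.cpow_nat_mul]
        congr 1
        push_cast
        ring
      rw [e1, e2, mul_pow]
    · have h1 := hCL s hs
      rw [h1]
      unfold disc
      ring
  have hz : ∀ x : ℝ, NonVan lam x = 0 := by
    intro x
    unfold NonVan
    rw [Nat.card_eq_zero]
    left
    refine ⟨?_⟩
    rintro ⟨E, -, G, hG, hG0⟩
    obtain ⟨G', h1, -, h3⟩ := key E
    rw [twistedL_unique hG h1] at hG0
    exact hG0 h3
  have hlim : Tendsto (fun x : ℝ => (NonVan lam x : ℝ) / N x) atTop (𝓝 0) := by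
    have e1 : (fun x : ℝ => (NonVan lam x : ℝ) / N x) = fun _ => (0 : ℝ) := by
      funext x
      rw [hz, Nat.cast_zero, zero_div]
    rw [e1]
    exact tendsto_const_nhds
  refine ⟨f, ν, lam, ⟨h.ne, h.smooth, h.odd.1, ?_, h.bdd, ?_, ?_⟩, ?_, ?_, ?_, finite_disc, N_pos,
    hz, hlim, ?_⟩
  · intro z
    have h1 := h.lap z
    change -(z.im : ℂ) ^ 2 * Δ (Pool.Agent.K4H20.OM.ext f) z = _
    linear_combination -h1
  · intro y hy
    have h1 := h.Wc_zero hy
    rw [Pool.Agent.K4H20.OM.Wc_eq f 0 hy] at h1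
    unfold Pool.Agent.K4H20.OM.fc at h1
    rw [← h1]
    congr 1
    funext t
    unfold Pool.Agent.K4H20.OM.pt Pool.Agent.K4H20.OM.ee onC
    have e1 : (((1 : ℝ) : ℂ) * (y * Complex.I) + (t : ℂ)) = (t : ℂ) + y * Complex.I := by
      push_cast
      ring
    simp only [Int.cast_zero, zero_mul, neg_zero, Complex.ofReal_zero, mul_zero, Complex.exp_zero,
      mul_one]
    congr 2
    rw [← e1]
  · intro p hp z
    have : NeZero p := ⟨hp.ne_zero⟩
    have h1 := h.hecke p hp z
    unfold Pool.Agent.K4H20.OM.hk at h1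
    rw [← h1]
    have e1 := Pool.Agent.K4H20.OM.sumZ p (fun b => onC f (((z : ℂ) + b) / p))
    rw [← e1]
    congr 1
    · unfold onC Pool.Agent.K4H20.OM.pt
      congr 2
      push_cast
      ring
    · refine Finset.sum_congr rfl fun b _ => ?_
      unfold onC Pool.Agent.K4H20.OM.pt
      congr 2
      push_cast
      ring
  · intro z
    have h1 := h.odd.2 z
    rw [UpperHalfPlane.J_smul] at h1
    exact h1
  · intro E
    obtain ⟨G, h1, -, -⟩ := key E
    exact ⟨G, h1, fun G' h2 => twistedL_unique h2 h1⟩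
  · intro E G hG
    obtain ⟨G', h1, h2, h3⟩ := key E
    rw [twistedL_unique hG h1]
    exact ⟨h2, h3⟩
  · intro hc
    have := tendsto_nhds_unique hlim hc
    norm_num at this

end

end Pool.Agent.Results.MP_17f4cb_nt.OddMaass
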